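import Pool.Agent.X322.Iso6

namespace Pool.Agent.Results.MP_17669a_mp.AntisymmetricIsospectral

/-- The Floquet matrix `L_V(z)` of a `q`-periodic potential `V` (indices `0, …, q-1`): diagonal
entries `V`, entries `1` on the sub- and superdiagonal, `z⁻¹` in the upper right corner, `z` in the
lower left corner, zeros elsewhere. -/
noncomputable def floquet (q : ℕ) (V : Fin q → ℂ) (z : ℂ) : Matrix (Fin q) (Fin q) ℂ :=
  Matrix.of fun i j =>
    if i = j then V i
    else if j.val = i.val + 1 ∨ i.val = j.val + 1 then 1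
    else if i.val = 0 ∧ j.val + 1 = q then z⁻¹
    else if i.val + 1 = q ∧ j.val = 0 then z
    else 0

/-- `V` is Floquet isospectral to the zero potential. -/
def IsospectralToZero (q : ℕ) (V : Fin q → ℂ) : Prop :=
  ∀ z : ℂ, ‖z‖ = 1 → (floquet q V z).charpoly = (floquet q 0 z).charpoly

/-- `V` is antisymmetric: `v_j = - v_{q+1-j}` (in the `1`-based numbering). -/
def Antisymmetric (q : ℕ) (V : Fin q → ℂ) : Prop := ∀ j, V j = - V (Fin.rev j)

lemma floquet_eq (q : ℕ) (hq : 3 < q) (V : Fin q → ℂ) (z : ℂ) :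
    floquet q V z = Pool.Agent.X322.Iso.flo q V z z⁻¹ := by
  ext i j
  have hi := i.2
  have hj := j.2
  simp only [floquet, Pool.Agent.X322.Iso.flo, Matrix.of_apply]
  by_cases h1 : i = j
  · subst h1
    have c1 : ¬ (i.val = i.val + 1) := by omega
    have c2 : ¬ (i.val = 0 ∧ i.val + 1 = q) := by omega
    have c3 : ¬ (i.val + 1 = q ∧ i.val = 0) := by omega
    simp only [if_true, if_neg c1, if_neg c2, if_neg c3, add_zero]
  · have h1' : i.val ≠ j.val := fun h => h1 (Fin.ext h)
    by_cases h2 : j.val = i.val + 1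
    · have c1 : ¬ (i.val = j.val + 1) := by omega
      have c2 : ¬ (i.val = 0 ∧ j.val + 1 = q) := by omega
      have c3 : ¬ (i.val + 1 = q ∧ j.val = 0) := by omega
      have c4 : (j.val = i.val + 1 ∨ i.val = j.val + 1) := Or.inl h2
      simp only [if_neg h1, if_pos h2, if_pos c4, if_neg c1, if_neg c2, if_neg c3, add_zero,
        zero_add]
    · by_cases h3 : i.val = j.val + 1
      · have c2 : ¬ (i.val = 0 ∧ j.val + 1 = q) := by omega
        have c3 : ¬ (i.val + 1 = q ∧ j.val = 0) := by omega
        have c4 : (j.val = i.val + 1 ∨ i.val = j.val + 1) := Or.inr h3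
        simp only [if_neg h1, if_neg h2, if_pos h3, if_pos c4, if_neg c2, if_neg c3, add_zero,
          zero_add]
      · have c4 : ¬ (j.val = i.val + 1 ∨ i.val = j.val + 1) := by tauto
        by_cases h4 : i.val = 0 ∧ j.val + 1 = q
        · have h5 : ¬ (i.val + 1 = q ∧ j.val = 0) := by omega
          simp only [if_neg h1, if_neg h2, if_neg h3, if_neg c4, if_pos h4, if_neg h5, zero_add,
            add_zero]
        · by_cases h5 : i.val + 1 = q ∧ j.val = 0
          · simp only [if_neg h1, if_neg h2, if_neg h3, if_neg c4, if_neg h4, if_pos h5, zero_add]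
          · simp only [if_neg h1, if_neg h2, if_neg h3, if_neg c4, if_neg h4, if_neg h5, add_zero]

/-- For every `q > 3` there is a nonzero antisymmetric complex potential that is Floquet isospectral
to the zero potential. -/
theorem result (q : ℕ) (hq : 3 < q) :
    ∃ V : Fin q → ℂ, V ≠ 0 ∧ Antisymmetric q V ∧ IsospectralToZero q V := by
  obtain ⟨V, h1, h2, h3⟩ := Pool.Agent.X322.Iso.main q hq
  refine ⟨V, h1, h2, fun z hz => ?_⟩
  rw [floquet_eq q hq, floquet_eq q hq]
  refine h3 z ?_
  intro h
  rw [h, norm_zero] at hz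
  exact zero_ne_one hz

end Pool.Agent.Results.MP_17669a_mp.AntisymmetricIsospectral
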